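import Pool.Agent.helper40.TW.SpecG
import Pool.Agent.helper11.EV.ZT
import Pool.Agent.helper13.LD.E3
import Pool.Agent.helper57.LD.Z0
import Pool.Agent.helper95.TG.SW3c

set_option autoImplicit false

open Complex MeasureTheory Metric
open scoped ComplexConjugate ArithmeticFunction.vonMangoldt

namespace Pool.Agent.TWG

open Pool.Agent.helper6.LD (wt)
open Pool.Agent.helper85.BVP (ex)
open Pool.Agent.TW (Win Pw)
open Pool.Agent.EV (Zt)

lemma ZE2_low : ∃ c : ℝ, 0 < c ∧ ∀ s : ℂ, 1 < s.re → s.re ≤ 2 →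
    c * (s.re - 1) ≤ ‖riemannZeta s‖ := by
  obtain ⟨c, hc, h⟩ := Pool.Agent.helper74.TG.lower_trivial
  refine ⟨c, hc, fun s h1 h2 => ?_⟩
  have h3 := h 1 one_pos 1 s h1 h2
  have h4 : Pool.Agent.helper39.MT.DD (1 : DirichletCharacter ℂ 1) 0 s = riemannZeta s := by
    rw [← LSeries_one_eq_riemannZeta h1]
    unfold Pool.Agent.helper39.MT.DD
    simp
    refine LSeries_congr ?_ s
    intro n hn
    simp [MulChar.one_apply (isUnit_of_subsingleton _)]
  rwa [h4] at h3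

lemma ZE2_log (s : ℂ) (hs : 1 < s.re) :
    LSeries (fun n => ((ArithmeticFunction.vonMangoldt n : ℝ) : ℂ)) s =
      1 / (s - 1) - logDeriv Zt s := by
  have hs1 : s ≠ 1 := by
    rintro rfl
    simp at hs
  have hz : riemannZeta s ≠ 0 := riemannZeta_ne_zero_of_one_lt_re hs
  have h1 : Zt =ᶠ[nhds s] fun z => (z - 1) * riemannZeta z := by
    filter_upwards [isOpen_ne.mem_nhds hs1] with z hz
    exact Pool.Agent.EV.ZT_ne z hz
  have h2 : logDeriv Zt s = logDeriv (fun z => (z - 1) * riemannZeta z) s := by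
    rw [logDeriv_apply, logDeriv_apply, h1.deriv_eq, h1.self_of_nhds]
  rw [h2, logDeriv_mul (f := fun z : ℂ => z - 1) (g := riemannZeta) s (sub_ne_zero.2 hs1) hz
    (by fun_prop) (differentiableAt_riemannZeta hs1),
    ArithmeticFunction.LSeries_vonMangoldt_eq_deriv_riemannZeta_div hs, logDeriv_apply,
    logDeriv_apply]
  simp
  ring

theorem ZE2 : ZE2_stmt := by
  obtain ⟨c₁, hc₁, hlow⟩ := ZE2_low
  obtain ⟨hZd, hZne, hZ1, ⟨C₀, hC₀, hgr⟩, -⟩ := Pool.Agent.EV.ZT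
  obtain ⟨C₂, hC₂, hexp⟩ := Pool.Agent.helper6.LD.expansion (3 / 8) (1 / 2) (by norm_num)
    (by norm_num)
  refine ⟨C₂ * 21 * (8 / 3), max 3 ⌈4 * C₀ / c₁⌉₊, by positivity, ?_⟩
  intro M hM r v hr hr4 hv
  have hM3 : 3 ≤ M := le_trans (le_max_left _ _) hM
  have hM3' : (3 : ℝ) ≤ M := by exact_mod_cast hM3
  have hMC : 4 * C₀ / c₁ ≤ M :=
    le_trans (Nat.le_ceil _) (by exact_mod_cast le_trans (le_max_right _ _) hM)
  have hM0 : (0 : ℝ) < M := by linarith
  set ℓ := Real.log M with hℓ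
  have hℓ1 : 1 ≤ ℓ := by
    rw [hℓ, Real.le_log_iff_exp_le hM0]
    have := Real.exp_one_lt_d9
    linarith
  have hℓM : ℓ ≤ M := (Real.log_le_sub_one_of_pos hM0).trans (by linarith)
  have hr0 : 0 < r := lt_of_lt_of_le (by positivity) hr
  have hrM : 1 / (M : ℝ) ^ 2 ≤ r := le_trans
    (one_div_le_one_div_of_le (by positivity) (pow_le_pow_left₀ (by linarith) hℓM 2)) hr
  obtain ⟨c, hc⟩ : ∃ c : ℂ, c = ((1 + r : ℝ) : ℂ) + v * I := ⟨_, rfl⟩
  have hre : c.re = 1 + r := by rw [hc]; simp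
  have him : c.im = v := by rw [hc]; simp
  have hc1 : c ≠ 1 := by
    intro h
    rw [h] at hre
    simp at hre
    linarith
  -- the lower bound
  have hZc : c₁ / (M : ℝ) ^ 4 ≤ ‖Zt c‖ := by
    rw [hZne c hc1, norm_mul]
    have h1 : r ≤ ‖c - 1‖ := by
      have := Complex.abs_re_le_norm (c - 1)
      rw [Complex.sub_re, hre, Complex.one_re, add_sub_cancel_left, abs_of_pos hr0] at this
      exact this
    have h2 := hlow c (by rw [hre]; linarith) (by rw [hre]; linarith)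
    rw [hre, add_sub_cancel_left] at h2
    calc c₁ / (M : ℝ) ^ 4 = (1 / (M : ℝ) ^ 2) * (c₁ * (1 / (M : ℝ) ^ 2)) := by
          field_simp
      _ ≤ r * (c₁ * r) := mul_le_mul hrM (mul_le_mul_of_nonneg_left hrM hc₁.le) (by positivity)
          hr0.le
      _ ≤ ‖c - 1‖ * ‖riemannZeta c‖ := mul_le_mul h1 h2 (by positivity) (norm_nonneg _)
  have hZc0 : Zt c ≠ 0 := by
    intro h
    rw [h, norm_zero] at hZc
    have : 0 < c₁ / (M : ℝ) ^ 4 := by positivity
    linarith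
  have hM8 : 3 ≤ (M : ℝ) ^ 8 := by
    calc (3 : ℝ) ≤ 3 ^ 8 := by norm_num
      _ ≤ _ := pow_le_pow_left₀ (by norm_num) hM3' 8
  have hball : ∀ z ∈ closedBall c (1 / 2), 1 / 8 ≤ z.re ∧ 1 + ‖z‖ ≤ 2 * (M : ℝ) ^ 8 := by
    intro z hz
    rw [mem_closedBall, dist_eq_norm] at hz
    have h1 := Complex.abs_re_le_norm (z - c)
    rw [Complex.sub_re, hre] at h1
    have h1' := (abs_le.mp (h1.trans hz)).1
    refine ⟨by linarith, ?_⟩
    have h3 : ‖z‖ ≤ ‖z - c‖ + ‖c‖ := by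
      have := norm_add_le (z - c) c
      simpa using this
    have h4 : ‖c‖ ≤ (1 + r) + |v| := by
      rw [hc]
      refine (norm_add_le _ _).trans ?_
      rw [norm_mul, Complex.norm_I, Complex.norm_real, Complex.norm_real, mul_one,
        Real.norm_of_nonneg (by linarith), Real.norm_eq_abs]
    linarith
  have hB : Real.exp (21 * ℓ) = (M : ℝ) ^ 21 := by
    rw [show (21 : ℝ) * ℓ = ((21 : ℕ) : ℝ) * ℓ by norm_num, Real.exp_nat_mul, hℓ,
      Real.exp_log hM0]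
  have hbd : ∀ z ∈ closedBall c (1 / 2), ‖Zt z‖ ≤ Real.exp (21 * ℓ) * ‖Zt c‖ := by
    intro z hz
    obtain ⟨h1, h2⟩ := hball z hz
    rw [hB]
    calc ‖Zt z‖ ≤ C₀ * (1 + ‖z‖) ^ 2 := hgr z h1
      _ ≤ C₀ * (2 * (M : ℝ) ^ 8) ^ 2 := by
        refine mul_le_mul_of_nonneg_left ?_ hC₀.le
        exact pow_le_pow_left₀ (by positivity) h2 2
      _ = (4 * C₀ / c₁) * (M : ℝ) ^ 20 * (c₁ / (M : ℝ) ^ 4) := by
        field_simp
        ring
      _ ≤ M * (M : ℝ) ^ 20 * ‖Zt c‖ := by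
        refine mul_le_mul ?_ hZc (by positivity) (by positivity)
        exact mul_le_mul_of_nonneg_right hMC (by positivity)
      _ = (M : ℝ) ^ 21 * ‖Zt c‖ := by ring
  have hmain := hexp Zt c (21 * ℓ) 1 le_rfl (by linarith)
    (fun z _ => hZd.differentiableOn.analyticAt (s := Set.univ) Filter.univ_mem) hZc0 hbd
  -- the zeros
  have hZre : ∀ ρ, Zt ρ = 0 → ρ.re < 1 := by
    intro ρ hρ
    by_contra h
    push Not at h
    have hρ1 : ρ ≠ 1 := by
      rintro rfl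
      rw [hZ1] at hρ
      exact one_ne_zero hρ
    rw [hZne ρ hρ1, mul_eq_zero] at hρ
    rcases hρ with hρ | hρ
    · exact hρ1 (sub_eq_zero.1 hρ)
    · exact riemannZeta_ne_zero_of_one_le_re h hρ
  set SS : ℂ := ∑ᶠ ρ ∈ {ρ : ℂ | ρ ∈ closedBall c (3 / 8) ∧ Zt ρ = 0},
    (analyticOrderNatAt Zt ρ : ℂ) * ((ρ - c) ^ 1)⁻¹ with hSS
  have hSSre : SS.re ≤ 0 := by
    rw [hSS]
    by_cases hfin : ({ρ : ℂ | ρ ∈ closedBall c (3 / 8) ∧ Zt ρ = 0} ∩
        Function.support fun ρ => (analyticOrderNatAt Zt ρ : ℂ) * ((ρ - c) ^ 1)⁻¹).Finite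
    · rw [finsum_mem_eq_sum _ hfin, Complex.re_sum]
      refine Finset.sum_nonpos fun ρ hρ => ?_
      rw [Set.Finite.mem_toFinset] at hρ
      have h1 := hZre ρ hρ.1.2
      have e0 : (analyticOrderNatAt Zt ρ : ℂ) = ((analyticOrderNatAt Zt ρ : ℝ) : ℂ) := by
        push_cast; rfl
      rw [e0, Complex.re_ofReal_mul, pow_one, Complex.inv_re, Complex.sub_re, hre]
      refine mul_nonpos_of_nonneg_of_nonpos (Nat.cast_nonneg _) ?_
      exact div_nonpos_of_nonpos_of_nonneg (by linarith) (Complex.normSq_nonneg _)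
    · rw [finsum_mem_eq_zero_of_infinite hfin]
      simp
  have hser : (∑' n : ℕ, (wt (1 + r) 1 n : ℂ) * (n : ℂ) ^ (-(v * I))) =
      1 / (c - 1) - logDeriv Zt c := by
    rw [Pool.Agent.helper6.LD.h57_series, ← hc]
    simp only [Nat.sub_self, Nat.factorial_zero, Nat.cast_one, inv_one, one_mul,
      Function.iterate_zero, id]
    exact ZE2_log c (by rw [hre]; linarith)
  have h5 : ‖logDeriv Zt c + SS‖ ≤ C₂ * 21 * (8 / 3) * ℓ := by
    have h6 : iteratedDeriv (1 - 1) (logDeriv Zt) c / ((1 - 1).factorial : ℂ) = logDeriv Zt c := by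
      simp
    rw [h6] at hmain
    refine hmain.trans (le_of_eq ?_)
    push_cast
    ring
  have h7 : -(C₂ * 21 * (8 / 3) * ℓ) ≤ (logDeriv Zt c + SS).re :=
    (abs_le.1 ((Complex.abs_re_le_norm _).trans h5)).1
  rw [Complex.add_re] at h7
  have h8 : (1 / (c - 1)).re = r / (r ^ 2 + v ^ 2) := by
    rw [one_div, Complex.inv_re, Complex.normSq_apply, Complex.sub_re, Complex.sub_im, hre, him]
    simp
    ring_nf
  rw [hser, Complex.sub_re, h8]
  linarith

end Pool.Agent.TWG
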